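import Pool.Agent.Run7.h343.PV.Iface

/-!
# Project PV, piece PHI2
-/

set_option autoImplicit false

namespace Pool.Agent.Run7.h950.PV

open Finset Pool.Agent.Run7.h343.PV

theorem num (p : ℕ) (hp : 7 ≤ p) : ((p : ℝ) / (p - 1)) ^ 2 ≤ 1 + (p : ℝ) ^ (-(1 / 2) : ℝ) := by
  obtain ⟨y, hy⟩ : ∃ y : ℕ, p = 7 + y := Nat.exists_eq_add_of_le hp
  have hx : (p : ℝ) = 7 + y := by rw [hy]; push_cast; ring
  have hy0 : (0 : ℝ) ≤ y := by positivity
  have hp0 : (0 : ℝ) < p := by rw [hx]; positivity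
  have hs : 0 < Real.sqrt p := Real.sqrt_pos.2 hp0
  have hs2 : Real.sqrt p ^ 2 = p := Real.sq_sqrt hp0.le
  rw [Real.rpow_neg hp0.le, ← Real.sqrt_eq_rpow, ← one_div]
  have hp1 : (0 : ℝ) < p - 1 := by rw [hx]; linarith
  have h1 : (2 * (p : ℝ) - 1) * Real.sqrt p ≤ (p - 1) ^ 2 := by
    have h2 : ((2 * (p : ℝ) - 1) * Real.sqrt p) ^ 2 ≤ (((p : ℝ) - 1) ^ 2) ^ 2 := by
      rw [mul_pow, hs2, hx]
      have h3 : ((7 + (y : ℝ) - 1) ^ 2) ^ 2 - (2 * (7 + (y : ℝ)) - 1) ^ 2 * (7 + y) =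
          y ^ 4 + 20 * y ^ 3 + 136 * y ^ 2 + 331 * y + 113 := by ring
      have h4 : 0 ≤ (y : ℝ) ^ 4 + 20 * y ^ 3 + 136 * y ^ 2 + 331 * y + 113 := by positivity
      linarith
    exact (pow_le_pow_iff_left₀ (by rw [hx]; have := hs.le; rw [hx] at this; nlinarith)
      (by positivity) two_ne_zero).1 h2
  have h5 : ((p : ℝ) / (p - 1)) ^ 2 = 1 + (2 * (p : ℝ) - 1) / (p - 1) ^ 2 := by
    field_simp
    ring
  rw [h5]
  have h6 : (2 * (p : ℝ) - 1) / (p - 1) ^ 2 ≤ 1 / Real.sqrt p := by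
    rw [div_le_div_iff₀ (by positivity) hs, one_mul]
    exact h1
  linarith

/-- constants at the small primes -/
noncomputable def c0 (p : ℕ) : ℝ := if p = 2 then 4 else if p = 3 then 9 / 4 else
  if p = 5 then 25 / 16 else 1

theorem c0_one (p : ℕ) : 1 ≤ c0 p := by
  unfold c0
  split_ifs <;> norm_num

theorem num' (p : ℕ) (hp : p.Prime) :
    ((p : ℝ) / (p - 1)) ^ 2 ≤ c0 p * (1 + (p : ℝ) ^ (-(1 / 2) : ℝ)) := by
  have hb : (1 : ℝ) ≤ 1 + (p : ℝ) ^ (-(1 / 2) : ℝ) := by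
    have : 0 ≤ (p : ℝ) ^ (-(1 / 2) : ℝ) := by positivity
    linarith
  by_cases h7 : 7 ≤ p
  · have := num p h7
    have h1 := c0_one p
    nlinarith
  · have hle : p ≤ 6 := by omega
    have h2 := hp.two_le
    interval_cases p
    · have : c0 2 = 4 := by unfold c0; norm_num
      rw [this]
      norm_num at hb ⊢
      linarith
    · have : c0 3 = 9 / 4 := by unfold c0; norm_num
      rw [this]
      norm_num at hb ⊢
      linarith
    · exact absurd hp (by norm_num)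
    · have : c0 5 = 25 / 16 := by unfold c0; norm_num
      rw [this]
      norm_num at hb ⊢
      linarith
    · exact absurd hp (by norm_num)

theorem prod_c0 (S : Finset ℕ) : ∏ p ∈ S, c0 p ≤ 15 := by
  have h1 : ∏ p ∈ S, c0 p ≤ ∏ p ∈ S ∪ {2, 3, 5}, c0 p := by
    apply Finset.prod_le_prod_of_subset_of_one_le
    · exact subset_union_left
    · intro i _
      exact zero_le_one.trans (c0_one i)
    · intro i _ _
      exact c0_one i
  have h2 : ∏ p ∈ S ∪ {2, 3, 5}, c0 p = ∏ p ∈ ({2, 3, 5} : Finset ℕ), c0 p := by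
    symm
    apply Finset.prod_subset subset_union_right
    intro x _ hx
    simp only [mem_insert, mem_singleton, not_or] at hx
    unfold c0
    rw [if_neg hx.1, if_neg hx.2.1, if_neg hx.2.2]
  have h3 : ∏ p ∈ ({2, 3, 5} : Finset ℕ), c0 p = 4 * (9 / 4) * (25 / 16) := by
    rw [prod_insert (by decide), prod_insert (by decide), prod_singleton]
    unfold c0
    norm_num
  rw [h2, h3] at h1
  exact h1.trans (by norm_num)

theorem sum_div_ge (d : ℕ) (hd : d ≠ 0) : ∏ p ∈ d.primeFactors, (1 + (p : ℝ) ^ (-(1 / 2) : ℝ)) ≤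
    ∑ e ∈ d.divisors, (e : ℝ) ^ (-(1 / 2) : ℝ) := by
  rw [Finset.prod_one_add]
  have h1 : ∀ t ∈ d.primeFactors.powerset, ∏ p ∈ t, (p : ℝ) ^ (-(1 / 2) : ℝ) =
      ((∏ p ∈ t, p : ℕ) : ℝ) ^ (-(1 / 2) : ℝ) := by
    intro t _
    rw [Real.finset_prod_rpow _ _ fun i _ => by positivity]
    push_cast
    rfl
  rw [sum_congr rfl h1]
  have hinj : Set.InjOn (fun t : Finset ℕ => ∏ p ∈ t, p) (d.primeFactors.powerset : Set (Finset ℕ)) := by
    intro s hs t ht hst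
    rw [mem_coe, mem_powerset] at hs ht
    have h2 := Nat.primeFactors_prod (s := s) fun p hp => Nat.prime_of_mem_primeFactors (hs hp)
    have h3 := Nat.primeFactors_prod (s := t) fun p hp => Nat.prime_of_mem_primeFactors (ht hp)
    rw [← h2, ← h3]
    exact congrArg _ hst
  rw [← sum_image (f := fun e : ℕ => (e : ℝ) ^ (-(1 / 2) : ℝ)) hinj]
  apply sum_le_sum_of_subset_of_nonneg
  · intro e he
    rw [mem_image] at he
    obtain ⟨t, ht, rfl⟩ := he
    rw [mem_powerset] at ht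
    rw [Nat.mem_divisors]
    refine ⟨?_, hd⟩
    exact (Finset.prod_dvd_prod_of_subset _ _ _ ht).trans (Nat.prod_primeFactors_dvd d)
  · intro e _ _
    positivity

theorem ratio_le (d : ℕ) (hd : d ≠ 0) : ((d : ℝ) / Nat.totient d) ^ 2 ≤
    15 * ∑ e ∈ d.divisors, (e : ℝ) ^ (-(1 / 2) : ℝ) := by
  have h1 : (Nat.totient d : ℝ) = d * ∏ p ∈ d.primeFactors, (1 - (p : ℝ)⁻¹) := by
    have := Nat.totient_eq_mul_prod_factors d
    have h2 : ((Nat.totient d : ℚ) : ℝ) = ((d * ∏ p ∈ d.primeFactors, (1 - (p : ℚ)⁻¹) : ℚ) : ℝ) := by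
      rw [this]
    push_cast at h2
    exact h2
  have hd' : (d : ℝ) ≠ 0 := by exact_mod_cast hd
  have hpp : ∀ p ∈ d.primeFactors, (p : ℝ) ≠ 0 ∧ (p : ℝ) - 1 ≠ 0 := by
    intro p hp
    have h2 := (Nat.prime_of_mem_primeFactors hp).two_le
    have h3 : (2 : ℝ) ≤ p := by exact_mod_cast h2
    exact ⟨by linarith, by linarith⟩
  have h3 : (d : ℝ) / Nat.totient d = ∏ p ∈ d.primeFactors, ((p : ℝ) / (p - 1)) := by
    rw [h1, div_mul_eq_div_div, div_self hd', one_div, ← Finset.prod_inv_distrib]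
    apply prod_congr rfl
    intro p hp
    obtain ⟨h4, h5⟩ := hpp p hp
    field_simp
  rw [h3, ← Finset.prod_pow]
  calc ∏ p ∈ d.primeFactors, ((p : ℝ) / (p - 1)) ^ 2 ≤
        ∏ p ∈ d.primeFactors, (c0 p * (1 + (p : ℝ) ^ (-(1 / 2) : ℝ))) :=
        Finset.prod_le_prod (fun p _ => by positivity) fun p hp =>
          num' p (Nat.prime_of_mem_primeFactors hp)
    _ = (∏ p ∈ d.primeFactors, c0 p) * ∏ p ∈ d.primeFactors, (1 + (p : ℝ) ^ (-(1 / 2) : ℝ)) :=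
        Finset.prod_mul_distrib
    _ ≤ 15 * ∑ e ∈ d.divisors, (e : ℝ) ^ (-(1 / 2) : ℝ) := by
        apply mul_le_mul (prod_c0 _) (sum_div_ge d hd) _ (by norm_num)
        exact Finset.prod_nonneg fun p _ => by positivity

theorem harm (n : ℕ) (Y : ℕ) (hY : 1 ≤ Y) (hn : n ≤ Y) :
    ∑ k ∈ Icc 1 n, 1 / (k : ℝ) ≤ 1 + Real.log Y := by
  have h1 : ∑ k ∈ Icc 1 n, 1 / (k : ℝ) ≤ ∑ k ∈ Icc 1 Y, 1 / (k : ℝ) :=
    sum_le_sum_of_subset_of_nonneg (Icc_subset_Icc le_rfl hn) fun k _ _ => by positivity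
  have h2 := harmonic_le_one_add_log Y
  have h3 : ((harmonic Y : ℚ) : ℝ) = ∑ k ∈ Icc 1 Y, 1 / (k : ℝ) := by
    rw [harmonic_eq_sum_Icc]
    push_cast
    simp
  rw [h3] at h2
  exact h1.trans h2

theorem t_PHI2 : S_PHI2 := by
  have hsum : Summable fun n : ℕ => (n : ℝ) ^ (-(3 / 2) : ℝ) := by
    rw [Real.summable_nat_rpow]
    norm_num
  set Z : ℝ := ∑' n : ℕ, (n : ℝ) ^ (-(3 / 2) : ℝ) with hZ
  have hZ0 : 0 ≤ Z := tsum_nonneg fun n => by positivity
  have hmu : ∀ d, mu d ^ 2 ≤ 1 := by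
    intro d
    unfold mu
    have h := ArithmeticFunction.abs_moebius_le_one (n := d)
    have h' : |((ArithmeticFunction.moebius d : ℤ) : ℝ)| ≤ 1 := by exact_mod_cast h
    rw [← sq_abs]
    exact pow_le_one₀ (abs_nonneg _) h'
  refine ⟨15 * Z + 1, by positivity, fun Y hY => ?_⟩
  have hlog : 0 ≤ Real.log Y := Real.log_natCast_nonneg Y
  have key : ∑ d ∈ Icc 1 Y, mu d ^ 2 * d / (Nat.totient d : ℝ) ^ 2 ≤
      (15 * Z + 1) * (1 + Real.log Y) := by
    have h1 : ∀ d ∈ Icc 1 Y, mu d ^ 2 * d / (Nat.totient d : ℝ) ^ 2 ≤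
        15 * ∑ e ∈ Icc 1 Y, if e ∣ d then (1 / (d : ℝ)) * (e : ℝ) ^ (-(1 / 2) : ℝ) else 0 := by
      intro d hd
      rw [mem_Icc] at hd
      have hd0 : d ≠ 0 := by omega
      have hd1 : (0 : ℝ) < d := by exact_mod_cast hd.1
      have ht : (0 : ℝ) < Nat.totient d := by exact_mod_cast Nat.totient_pos.2 hd.1
      have h2 := ratio_le d hd0
      have h3 : mu d ^ 2 * d / (Nat.totient d : ℝ) ^ 2 ≤ (1 / d) * ((d : ℝ) / Nat.totient d) ^ 2 := by
        have h4 : (1 / d) * ((d : ℝ) / Nat.totient d) ^ 2 = 1 * d / (Nat.totient d : ℝ) ^ 2 := by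
          field_simp
        rw [h4]
        gcongr
        exact hmu d
      refine h3.trans ?_
      have h5 : ∑ e ∈ Icc 1 Y, (if e ∣ d then (1 / (d : ℝ)) * (e : ℝ) ^ (-(1 / 2) : ℝ) else 0) =
          (1 / d) * ∑ e ∈ d.divisors, (e : ℝ) ^ (-(1 / 2) : ℝ) := by
        rw [← sum_filter, mul_sum]
        apply sum_congr _ fun _ _ => rfl
        ext e
        rw [mem_filter, mem_Icc, Nat.mem_divisors]
        constructor
        · rintro ⟨-, h⟩
          exact ⟨h, hd0⟩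
        · rintro ⟨h, -⟩
          exact ⟨⟨Nat.pos_of_dvd_of_pos h hd.1, (Nat.le_of_dvd hd.1 h).trans hd.2⟩, h⟩
      rw [h5]
      calc (1 / (d : ℝ)) * ((d : ℝ) / Nat.totient d) ^ 2 ≤
            (1 / d) * (15 * ∑ e ∈ d.divisors, (e : ℝ) ^ (-(1 / 2) : ℝ)) := by gcongr
        _ = _ := by ring
    refine (sum_le_sum h1).trans ?_
    rw [← mul_sum, sum_comm]
    have h2 : ∀ e ∈ Icc 1 Y, ∑ d ∈ Icc 1 Y, (if e ∣ d then (1 / (d : ℝ)) *
        (e : ℝ) ^ (-(1 / 2) : ℝ) else 0) ≤ (e : ℝ) ^ (-(3 / 2) : ℝ) * (1 + Real.log Y) := by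
      intro e he
      rw [mem_Icc] at he
      have he1 : (0 : ℝ) < e := by exact_mod_cast he.1
      rw [← sum_filter]
      have h3 : (Icc 1 Y).filter (fun d => e ∣ d) = (Icc 1 (Y / e)).image (fun k => e * k) := by
        ext d
        rw [mem_filter, mem_image, mem_Icc]
        constructor
        · rintro ⟨⟨h4, h5⟩, k, rfl⟩
          refine ⟨k, ?_, rfl⟩
          rw [mem_Icc]
          refine ⟨Nat.pos_of_ne_zero fun h => ?_, ?_⟩
          · subst h; omega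
          · exact (Nat.le_div_iff_mul_le he.1).2 (by rw [mul_comm]; exact h5)
        · rintro ⟨k, hk, rfl⟩
          rw [mem_Icc] at hk
          refine ⟨⟨Nat.mul_pos he.1 hk.1, ?_⟩, dvd_mul_right _ _⟩
          have := (Nat.le_div_iff_mul_le he.1).1 hk.2
          rwa [mul_comm] at this
      rw [h3, sum_image (fun a _ b _ hab => Nat.eq_of_mul_eq_mul_left he.1 hab)]
      have h4 : ∀ k ∈ Icc 1 (Y / e), (1 / ((e * k : ℕ) : ℝ)) * (e : ℝ) ^ (-(1 / 2) : ℝ) =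
          (e : ℝ) ^ (-(3 / 2) : ℝ) * (1 / k) := by
        intro k hk
        rw [mem_Icc] at hk
        have hk1 : (0 : ℝ) < k := by exact_mod_cast hk.1
        have h5 : (e : ℝ) ^ (-(3 / 2) : ℝ) = (e : ℝ) ^ (-(1 / 2) : ℝ) * (e : ℝ)⁻¹ := by
          rw [← Real.rpow_neg_one, ← Real.rpow_add he1]
          norm_num
        rw [h5]
        push_cast
        field_simp
      rw [sum_congr rfl h4, ← mul_sum]
      have h5 := harm (Y / e) Y hY (Nat.div_le_self _ _)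
      gcongr
    have h3 : ∑ e ∈ Icc 1 Y, (e : ℝ) ^ (-(3 / 2) : ℝ) ≤ Z :=
      hsum.sum_le_tsum _ fun n _ => by positivity
    calc 15 * ∑ e ∈ Icc 1 Y, ∑ d ∈ Icc 1 Y, (if e ∣ d then (1 / (d : ℝ)) *
          (e : ℝ) ^ (-(1 / 2) : ℝ) else 0) ≤
          15 * ∑ e ∈ Icc 1 Y, (e : ℝ) ^ (-(3 / 2) : ℝ) * (1 + Real.log Y) := by
          gcongr with e he
          exact h2 e he
      _ = 15 * ((∑ e ∈ Icc 1 Y, (e : ℝ) ^ (-(3 / 2) : ℝ)) * (1 + Real.log Y)) := by rw [sum_mul]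
      _ ≤ 15 * (Z * (1 + Real.log Y)) := by gcongr
      _ ≤ (15 * Z + 1) * (1 + Real.log Y) := by nlinarith
  refine ⟨le_trans (sum_le_sum fun d hd => ?_) key, key⟩
  rw [mem_Icc] at hd
  have ht : (0 : ℝ) < Nat.totient d := by exact_mod_cast Nat.totient_pos.2 hd.1
  have h1 : (Nat.totient d : ℝ) ≤ d := by exact_mod_cast Nat.totient_le d
  rw [div_le_div_iff₀ ht (by positivity)]
  have h2 : 0 ≤ mu d ^ 2 := sq_nonneg _
  calc mu d ^ 2 * (Nat.totient d : ℝ) ^ 2 = mu d ^ 2 * Nat.totient d * Nat.totient d := by ring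
    _ ≤ mu d ^ 2 * d * Nat.totient d := by gcongr

end Pool.Agent.Run7.h950.PV
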