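import Pool.Agent.Run7.h343.PV.Iface

/-!
# Project PV, pieces TAIL and PHI2
-/

set_option autoImplicit false

namespace Pool.Agent.Run7.h950.PV

open Finset Complex Pool.Agent.Run7.h343.PV

theorem sum_inv_sqrt (J : ℕ) : ∑ q ∈ Icc 1 J, 1 / Real.sqrt q ≤ 2 * Real.sqrt J := by
  induction J with
  | zero => simp
  | succ J ih =>
    rw [Finset.sum_Icc_succ_top (by omega)]
    have h1 : Real.sqrt ((J + 1 : ℕ) : ℝ) ^ 2 = (J : ℝ) + 1 := by
      rw [Real.sq_sqrt (by positivity)]; push_cast; ring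
    have h2 : Real.sqrt (J : ℝ) ^ 2 = (J : ℝ) := Real.sq_sqrt (by positivity)
    have h3 : 0 < Real.sqrt ((J + 1 : ℕ) : ℝ) := Real.sqrt_pos.2 (by positivity)
    have h4 : 0 ≤ Real.sqrt (J : ℝ) := Real.sqrt_nonneg _
    have h5 : 1 / Real.sqrt ((J + 1 : ℕ) : ℝ) ≤
        2 * Real.sqrt ((J + 1 : ℕ) : ℝ) - 2 * Real.sqrt J := by
      rw [div_le_iff₀ h3]
      nlinarith [sq_nonneg (Real.sqrt ((J + 1 : ℕ) : ℝ) - Real.sqrt J)]
    linarith

theorem inner_bound (Y P N : ℕ) (u : ℤ) (hY : 1 ≤ Y) (hP : 1 ≤ P) :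
    ∑ n ∈ (Icc 1 N).filter (fun n : ℕ => P ≤ 2 * Y * n ∧ (P : ℤ) ∣ (n : ℤ) - u),
      1 / Real.sqrt n ≤ 4 * (Real.sqrt ((Y : ℝ) / P) + Real.sqrt N / P) := by
  set S := (Icc 1 N).filter (fun n : ℕ => P ≤ 2 * Y * n ∧ (P : ℤ) ∣ (n : ℤ) - u) with hS
  have hP' : (0 : ℝ) < P := by exact_mod_cast hP
  have hY' : (0 : ℝ) < Y := by exact_mod_cast hY
  set f : ℕ → ℝ := fun q => if q = 0 then Real.sqrt (2 * Y / P) else
    1 / Real.sqrt P * (1 / Real.sqrt q) with hf
  have hf0 : ∀ q, 0 ≤ f q := by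
    intro q
    rw [hf]
    simp only
    split_ifs <;> positivity
  have hinj : Set.InjOn (fun n => n / P) (S : Set ℕ) := by
    intro a ha b hb hab
    rw [hS, mem_coe, mem_filter] at ha hb
    have h1 : (P : ℤ) ∣ (a : ℤ) - b := by
      have := dvd_sub ha.2.2 hb.2.2
      simpa using this
    have h2 : a % P = b % P := by
      have h3 : (a : ℤ) ≡ b [ZMOD P] := (Int.modEq_iff_dvd.2 (by
        have := dvd_neg.2 h1
        simpa using this))
      exact Int.natCast_modEq_iff.1 h3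
    have h3 : a / P = b / P := hab
    rw [← Nat.div_add_mod a P, ← Nat.div_add_mod b P, h2, h3]
  have hle : ∀ n ∈ S, 1 / Real.sqrt n ≤ f (n / P) := by
    intro n hn
    rw [hS, mem_filter, mem_Icc] at hn
    have hn1 : (0 : ℝ) < n := by exact_mod_cast hn.1.1
    rw [hf]
    simp only
    split_ifs with h0
    · rw [div_le_iff₀ (Real.sqrt_pos.2 hn1), ← Real.sqrt_mul (by positivity)]
      apply Real.one_le_sqrt.2
      have : (P : ℝ) ≤ 2 * Y * n := by exact_mod_cast hn.2.1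
      rw [div_mul_eq_mul_div, le_div_iff₀ hP', one_mul]
      exact this
    · rw [one_div_mul_one_div, ← Real.sqrt_mul hP'.le]
      have hq : 0 < n / P := Nat.pos_of_ne_zero h0
      have h2 : P * (n / P) ≤ n := Nat.mul_div_le n P
      have h3 : (P : ℝ) * ((n / P : ℕ) : ℝ) ≤ n := by exact_mod_cast h2
      have h4 : (0 : ℝ) < (P : ℝ) * ((n / P : ℕ) : ℝ) := by
        have : (0 : ℝ) < ((n / P : ℕ) : ℝ) := by exact_mod_cast hq
        positivity
      exact one_div_le_one_div_of_le (Real.sqrt_pos.2 h4) (Real.sqrt_le_sqrt h3)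
  have hsub : S.image (fun n => n / P) ⊆ range (N / P + 1) := by
    intro q hq
    rw [mem_image] at hq
    obtain ⟨n, hn, rfl⟩ := hq
    rw [hS, mem_filter, mem_Icc] at hn
    rw [mem_range]
    have := Nat.div_le_div_right (c := P) hn.1.2
    omega
  have h1 : ∑ n ∈ S, 1 / Real.sqrt n ≤ ∑ q ∈ range (N / P + 1), f q := by
    calc ∑ n ∈ S, 1 / Real.sqrt n ≤ ∑ n ∈ S, f (n / P) := sum_le_sum hle
      _ = ∑ q ∈ S.image (fun n => n / P), f q := (sum_image hinj).symm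
      _ ≤ _ := sum_le_sum_of_subset_of_nonneg hsub fun q _ _ => hf0 q
  have h2 : ∑ q ∈ range (N / P + 1), f q =
      Real.sqrt (2 * Y / P) + 1 / Real.sqrt P * ∑ q ∈ Icc 1 (N / P), 1 / Real.sqrt q := by
    rw [Finset.range_eq_Ico, Finset.sum_eq_sum_Ico_succ_bot (Nat.succ_pos _)]
    congr 1
    rw [mul_sum]
    apply sum_congr
    · ext q
      simp only [mem_Ico, mem_Icc]
      omega
    · intro q hq
      rw [mem_Icc] at hq
      rw [hf]
      simp only
      rw [if_neg (by omega)]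
  rw [h2] at h1
  refine h1.trans ?_
  have h3 := sum_inv_sqrt (N / P)
  have h4 : Real.sqrt ((N / P : ℕ) : ℝ) ≤ Real.sqrt N / Real.sqrt P := by
    rw [← Real.sqrt_div (by positivity)]
    apply Real.sqrt_le_sqrt
    exact Nat.cast_div_le
  have h5 : 1 / Real.sqrt P * ∑ q ∈ Icc 1 (N / P), 1 / Real.sqrt q ≤ 2 * (Real.sqrt N / P) := by
    calc 1 / Real.sqrt P * ∑ q ∈ Icc 1 (N / P), 1 / Real.sqrt q ≤
          1 / Real.sqrt P * (2 * (Real.sqrt N / Real.sqrt P)) := by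
          gcongr
          linarith
      _ = 2 * (Real.sqrt N / (Real.sqrt P * Real.sqrt P)) := by
          field_simp
      _ = 2 * (Real.sqrt N / P) := by rw [Real.mul_self_sqrt hP'.le]
  have h6 : Real.sqrt (2 * Y / P) ≤ 2 * Real.sqrt ((Y : ℝ) / P) := by
    rw [mul_div_assoc, Real.sqrt_mul (by norm_num)]
    have : Real.sqrt 2 ≤ 2 := by
      rw [Real.sqrt_le_left (by norm_num)]
      norm_num
    gcongr
  have h7 : 0 ≤ Real.sqrt ((Y : ℝ) / P) := Real.sqrt_nonneg _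
  have h8 : 0 ≤ Real.sqrt N / P := by positivity
  linarith

theorem t_TAIL : S_TAIL := by
  intro Y P N u hY hP
  have hP' : (0 : ℝ) < P := by exact_mod_cast hP
  have h1 : ∀ l ∈ Icc 1 Y, ∑ n ∈ (Icc 1 N).filter
      (fun n : ℕ => P ≤ 2 * Y * n ∧ (P : ℤ) ∣ (n : ℤ) - u l), 1 / Real.sqrt ((n : ℝ) * l) ≤
      4 * (Real.sqrt ((Y : ℝ) / P) + Real.sqrt N / P) := by
    intro l hl
    rw [mem_Icc] at hl
    refine le_trans (sum_le_sum fun n hn => ?_) (inner_bound Y P N (u l) hY hP)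
    rw [mem_filter, mem_Icc] at hn
    have hn1 : (0 : ℝ) < n := by exact_mod_cast hn.1.1
    have hl1 : (1 : ℝ) ≤ l := by exact_mod_cast hl.1
    apply one_div_le_one_div_of_le (Real.sqrt_pos.2 hn1)
    apply Real.sqrt_le_sqrt
    nlinarith
  refine (sum_le_card_nsmul _ _ _ h1).trans ?_
  rw [Nat.card_Icc, nsmul_eq_mul]
  have : ((Y + 1 - 1 : ℕ) : ℝ) = Y := by simp
  rw [this]
  apply le_of_eq
  ring

end Pool.Agent.Run7.h950.PV
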